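import Pool.Agent.Lib.MP_469a26_an.Main

/-!
# MP_469a26_an: the holomorphic and antiholomorphic maps with trace `g_{R,m}`
-/

namespace Pool.Agent.Results.MP_469a26_an.ConformalSolutions

open DiskSphere Complex

/-- Let `m ≥ 1`, `0 < R ≤ 1` and let `u` be a map of the closed unit disk to the sphere,
continuous up to the boundary and equal to `g_{R,m}` there.  If `u` is holomorphic (as a map to the
Riemann sphere) in the open disk, it is `u_m^+`; if it is antiholomorphic, it is `u_m^-`. -/
theorem result (m : ℕ) (hm : 1 ≤ m) (R : ℝ) (hR : 0 < R) (hR1 : R ≤ 1) (u : ℂ → ℂ × ℝ)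
    (hS : ∀ z ∈ Metric.closedBall (0 : ℂ) 1, OnSphere (u z))
    (hc : ContinuousOn u (Metric.closedBall 0 1))
    (hb : ∀ θ : ℝ, u (exp ((θ : ℂ) * I)) = datum R m θ) :
    (HolomorphicMap u → ∀ z ∈ Metric.closedBall (0 : ℂ) 1, u z = uPlus R m z) ∧
      (AntiholomorphicMap u → ∀ z ∈ Metric.closedBall (0 : ℂ) 1, u z = uMinus R m z) :=
  DiskSphere.main m hm R hR hR1 u hS hc hb

end Pool.Agent.Results.MP_469a26_an.ConformalSolutions
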