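import Pool.Agent.Lib.MP_469a26_an.HMain

/-!
# MP_469a26_an: harmonic maps of the disk which are not weakly conformal
-/

namespace Pool.Agent.Results.MP_469a26_an.FourSignChanges

open DiskHarmonic Complex

/-- Let `u` be a harmonic map of the disk to a sphere, `C²` up to the boundary.  If
`α (|u_r|² - |u_θ|²) + β u_r · u_θ` times `a + Re (c z)` is nonnegative on the circle, for some
`(α, β) ≠ 0` and `(a, c) ≠ 0`, then `u` is weakly conformal. -/
theorem result {E : Type*} [NormedAddCommGroup E] [InnerProductSpace ℝ E]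
    (u : ℂ → E) (hu : HarmonicToSphere u) (α β a : ℝ) (c : ℂ)
    (hαβ : α ≠ 0 ∨ β ≠ 0) (hac : a ≠ 0 ∨ c ≠ 0)
    (h : ∀ z : ℂ, ‖z‖ = 1 → 0 ≤ (a + (c * z).re) *
      (α * (‖dr u z‖ ^ 2 - ‖dth u z‖ ^ 2) + β * inner ℝ (dr u z) (dth u z))) :
    ∀ z ∈ Metric.closedBall (0 : ℂ) 1, ‖ux u z‖ = ‖uy u z‖ ∧ inner ℝ (ux u z) (uy u z) = 0 :=
  DiskHarmonic.main u hu α β a c hαβ hac h

end Pool.Agent.Results.MP_469a26_an.FourSignChanges
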